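import Mathlib
import Pool.Agent.W654.Kron

set_option autoImplicit false

/-!
# A Baire category argument for the numbers `r^n (μ₁^n (1/2 + n β) + μ₂^n (1/2 + n conj β))`
-/

namespace Pool.Agent.X86.NH

open Filter Topology Complex ComplexConjugate

/-- The two unimodular numbers are independent. -/
def Indep (μ₁ μ₂ : ℂ) : Prop := ∀ m₁ m₂ : ℤ, μ₁ ^ m₁ * μ₂ ^ m₂ = 1 → m₁ = 0 ∧ m₂ = 0

lemma exists_angle (μ : ℂ) (h : ‖μ‖ = 1) : ∃ x : UnitAddCircle, (AddCircle.toCircle x : ℂ) = μ := by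
  obtain ⟨x, hx⟩ := (AddCircle.homeomorphCircle (T := 1) one_ne_zero).surjective
    ⟨μ, mem_sphere_zero_iff_norm.2 h⟩
  refine ⟨x, ?_⟩
  have := congrArg (fun c : Circle => (c : ℂ)) hx
  simpa [AddCircle.homeomorphCircle_apply] using this

lemma frequently_close {μ₁ μ₂ : ℂ} (h1 : ‖μ₁‖ = 1) (h2 : ‖μ₂‖ = 1) (hi : Indep μ₁ μ₂)
    {p q : ℂ} (hp : ‖p‖ = 1) (hq : ‖q‖ = 1) {U : Set (ℂ × ℂ)} (hU : U ∈ 𝓝 (p, q)) (n₀ : ℕ) :
    ∃ n ≥ n₀, (μ₁ ^ n, μ₂ ^ n) ∈ U := by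
  obtain ⟨z₁, hz₁⟩ := exists_angle μ₁ h1
  obtain ⟨z₂, hz₂⟩ := exists_angle μ₂ h2
  obtain ⟨x₁, hx₁⟩ := exists_angle p hp
  obtain ⟨x₂, hx₂⟩ := exists_angle q hq
  let z : UnitAddTorus (Fin 2) := ![z₁, z₂]
  let x : UnitAddTorus (Fin 2) := ![x₁, x₂]
  let Φ : UnitAddTorus (Fin 2) → ℂ × ℂ := fun y =>
    ((AddCircle.toCircle (y 0) : ℂ), (AddCircle.toCircle (y 1) : ℂ))
  have hΦ : Continuous Φ := by
    have hc : Continuous (fun y : UnitAddCircle => (AddCircle.toCircle y : ℂ)) :=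
      continuous_subtype_val.comp AddCircle.continuous_toCircle
    exact (hc.comp (continuous_apply 0)).prodMk (hc.comp (continuous_apply 1))
  have hΦx : Φ x = (p, q) := by simp [Φ, x, hx₁, hx₂]
  have hΦz : ∀ n : ℕ, Φ (n • z) = (μ₁ ^ n, μ₂ ^ n) := by
    intro n
    simp only [Φ, z, Pi.smul_apply, Matrix.cons_val_zero, Matrix.cons_val_one,
      AddCircle.toCircle_nsmul]
    simp [hz₁, hz₂]
  have hpre : Φ ⁻¹' U ∈ 𝓝 x := hΦ.continuousAt.preimage_mem_nhds (by rw [hΦx]; exact hU)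
  obtain ⟨ε, hε, hball⟩ := Metric.mem_nhds_iff.1 hpre
  obtain ⟨n, hn⟩ := Pool.Agent.W654.Kron.kronecker z (x - n₀ • z) (by
    intro k hk
    have h3 : μ₁ ^ (k 0) * μ₂ ^ (k 1) = 1 := by
      rw [Fin.sum_univ_two] at hk
      have h4 := congrArg (fun c : UnitAddCircle => (AddCircle.toCircle c : ℂ)) hk
      simp only [z, Matrix.cons_val_zero, Matrix.cons_val_one, AddCircle.toCircle_add,
        AddCircle.toCircle_zsmul, AddCircle.toCircle_zero] at h4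
      simpa [hz₁, hz₂] using h4
    obtain ⟨h5, h6⟩ := hi _ _ h3
    rw [Fin.sum_univ_two, h5, h6]; simp) ε hε
  refine ⟨n + n₀, by omega, ?_⟩
  have h7 : (n + n₀) • z ∈ Metric.ball x ε := by
    rw [Metric.mem_ball, add_smul]
    have : dist (n • z + n₀ • z) x = dist (n • z) (x - n₀ • z) := by
      rw [dist_eq_norm, dist_eq_norm]; congr 1; abel
    rw [this]; exact hn
  have h8 := hball h7
  rw [Set.mem_preimage, hΦz] at h8
  exact h8

/-- The orbit. -/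
noncomputable def orb (μ₁ μ₂ : ℂ) (r : ℝ) (β : ℂ) (n : ℕ) : ℂ :=
  (r : ℂ) ^ n * (μ₁ ^ n * (1 / 2 + n * β) + μ₂ ^ n * (1 / 2 + n * conj β))

lemma continuous_orb (μ₁ μ₂ : ℂ) (r : ℝ) (n : ℕ) : Continuous fun β => orb μ₁ μ₂ r β n := by
  unfold orb
  fun_prop

/-- Density step. -/
lemma step {μ₁ μ₂ : ℂ} (h1 : ‖μ₁‖ = 1) (h2 : ‖μ₂‖ = 1) (hi : Indep μ₁ μ₂) {r : ℝ} (hr : 1 ≤ r)
    {β₀ w : ℂ} (hβ : β₀ ≠ 0) (hw : w ≠ 0) {δ : ℝ} (hδ : 0 < δ) :
    ∃ β : ℂ, ∃ n : ℕ, ‖β - β₀‖ < δ ∧ ‖orb μ₁ μ₂ r β n - w‖ < δ := by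
  obtain ⟨b, hb⟩ : ∃ b : ℂ, b = β₀ / ‖β₀‖ := ⟨_, rfl⟩
  obtain ⟨e, he⟩ : ∃ e : ℂ, e = w / ‖w‖ := ⟨_, rfl⟩
  have hβn : (‖β₀‖ : ℂ) ≠ 0 := by exact_mod_cast norm_ne_zero_iff.2 hβ
  have hwn : (‖w‖ : ℂ) ≠ 0 := by exact_mod_cast norm_ne_zero_iff.2 hw
  have hb1 : ‖b‖ = 1 := by
    rw [hb, norm_div, norm_real, norm_norm, div_self (norm_ne_zero_iff.2 hβ)]
  have he1 : ‖e‖ = 1 := by
    rw [he, norm_div, norm_real, norm_norm, div_self (norm_ne_zero_iff.2 hw)]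
  have hbb : b * conj b = 1 := by rw [mul_conj, normSq_eq_norm_sq, hb1]; simp
  have hee : e * conj e = 1 := by rw [mul_conj, normSq_eq_norm_sq, he1]; simp
  have hb0 : b ≠ 0 := by intro h; rw [h] at hb1; simp at hb1
  have he0 : e ≠ 0 := by intro h; rw [h] at he1; simp at he1
  set p : ℂ := I * e * conj b with hp
  set q : ℂ := -I * e * b with hq
  have hp1 : ‖p‖ = 1 := by rw [hp]; simp [he1, hb1]
  have hq1 : ‖q‖ = 1 := by rw [hq]; simp [he1, hb1]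
  have hp0 : p ≠ 0 := by intro h; rw [h] at hp1; simp at hp1
  let uu : ℂ × ℂ → ℂ := fun s => -(s.2 / s.1) / b ^ 2
  let F : ℂ × ℂ → ℂ := fun s => -I * b * ((1 + uu s) / ‖1 + uu s‖)
  have huu : ContinuousAt uu (p, q) := by
    refine ContinuousAt.div_const ?_ _
    exact (continuousAt_snd.div continuousAt_fst hp0).neg
  have huu1 : uu (p, q) = 1 := by
    simp only [uu, hp, hq]
    have : (I * e * conj b) ≠ 0 := hp0
    have hcb : conj b ≠ 0 := by simpa using hb0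
    field_simp
    have : conj b * b = 1 := by rw [mul_comm]; exact hbb
    linear_combination -this
  have hF : ContinuousAt F (p, q) := by
    refine continuousAt_const.mul ?_
    refine (continuousAt_const.add huu).div ?_ ?_
    · exact (continuous_ofReal.continuousAt).comp ((continuousAt_const.add huu).norm)
    · rw [huu1]; norm_num
  have hF1 : F (p, q) = -I * b := by
    simp only [F, huu1]; norm_num
  -- the three conditions
  have hA : ∀ᶠ s in 𝓝 (p, q), ‖(‖w‖ : ℂ) * (s.1 * F s) - w‖ < δ := by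
    have hc : ContinuousAt (fun s : ℂ × ℂ => ‖(‖w‖ : ℂ) * (s.1 * F s) - w‖) (p, q) :=
      ((continuousAt_const.mul (continuousAt_fst.mul hF)).sub continuousAt_const).norm
    have hv : ‖(‖w‖ : ℂ) * (p * F (p, q)) - w‖ = 0 := by
      rw [hF1, norm_eq_zero, hp]
      have : (‖w‖ : ℂ) * e = w := by rw [he]; field_simp
      have h4 : I * e * conj b * (-I * b) = e := by
        have : I * I = -1 := I_mul_I
        linear_combination (-e * (b * conj b)) * this + e * hbb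
      rw [h4, this, sub_self]
    have := hc.tendsto
    simp only [hv] at this
    exact this.eventually (gt_mem_nhds hδ)
  have hB : ∀ᶠ s in 𝓝 (p, q), ‖I * F s * ‖β₀‖ - β₀‖ < δ / 2 := by
    have hc : ContinuousAt (fun s : ℂ × ℂ => ‖I * F s * ‖β₀‖ - β₀‖) (p, q) :=
      (((continuousAt_const.mul hF).mul continuousAt_const).sub continuousAt_const).norm
    have hv : ‖I * F (p, q) * ‖β₀‖ - β₀‖ = 0 := by
      rw [hF1, norm_eq_zero]
      have h5 : (‖β₀‖ : ℂ) * b = β₀ := by rw [hb]; field_simp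
      have h6 : I * (-I * b) * (‖β₀‖ : ℂ) = (‖β₀‖ : ℂ) * b := by
        have : I * I = -1 := I_mul_I
        linear_combination (-b * (‖β₀‖ : ℂ)) * this
      rw [h6, h5, sub_self]
    have := hc.tendsto
    simp only [hv] at this
    exact this.eventually (gt_mem_nhds (by linarith))
  have hC : ∀ᶠ s in 𝓝 (p, q), 1 + uu s ≠ 0 := by
    have hc : ContinuousAt (fun s : ℂ × ℂ => 1 + uu s) (p, q) := continuousAt_const.add huu
    refine hc.eventually_ne ?_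
    rw [huu1]; norm_num
  obtain ⟨N, hN⟩ := exists_nat_gt ((‖w‖ + 1) / δ)
  obtain ⟨n, hn, hmem⟩ := frequently_close h1 h2 hi hp1 hq1 (hA.and (hB.and hC)) (N + 1)
  obtain ⟨hnA, hnB, hnC⟩ := hmem
  set X : ℂ := μ₁ ^ n with hX
  set Y : ℂ := μ₂ ^ n with hY
  have hX1 : ‖X‖ = 1 := by rw [hX, norm_pow, h1, one_pow]
  have hY1 : ‖Y‖ = 1 := by rw [hY, norm_pow, h2, one_pow]
  have hX0 : X ≠ 0 := by intro h; rw [h] at hX1; simp at hX1
  have hY0 : Y ≠ 0 := by intro h; rw [h] at hY1; simp at hY1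
  have hXX : X * conj X = 1 := by rw [mul_conj, normSq_eq_norm_sq, hX1]; simp
  have hYY : Y * conj Y = 1 := by rw [mul_conj, normSq_eq_norm_sq, hY1]; simp
  set u : ℂ := uu (X, Y) with hu
  set g : ℂ := F (X, Y) with hg
  have hu1 : ‖u‖ = 1 := by
    rw [hu]; simp only [uu]; rw [norm_div, norm_neg, norm_div, hX1, hY1, norm_pow, hb1]; norm_num
  have huconj : u * conj u = 1 := by rw [mul_conj, normSq_eq_norm_sq, hu1]; simp
  have hnu : (‖1 + u‖ : ℂ) ≠ 0 := by exact_mod_cast norm_ne_zero_iff.2 hnC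
  have hnusq : (‖1 + u‖ : ℂ) ^ 2 = (1 + u) * (1 + conj u) := by
    have : (1 + u) * conj (1 + u) = ((‖1 + u‖ ^ 2 : ℝ) : ℂ) := by
      rw [mul_conj, normSq_eq_norm_sq]
    rw [map_add, map_one] at this
    rw [this]; push_cast; ring
  have hgdef : g = -I * b * ((1 + u) / ‖1 + u‖) := rfl
  have hg1 : ‖g‖ = 1 := by
    have h10 : ‖(1 + u) / (‖1 + u‖ : ℂ)‖ = 1 := by
      rw [norm_div, norm_real, norm_norm, div_self (norm_ne_zero_iff.2 hnC)]
    rw [hgdef, norm_mul, norm_mul, h10]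
    simp [hb1]
  have hgg : g * conj g = 1 := by rw [mul_conj, normSq_eq_norm_sq, hg1]; simp
  have hsq : g ^ 2 * X = Y := by
    have h8 : ((1 + u) / (‖1 + u‖ : ℂ)) ^ 2 = u := by
      rw [div_pow, div_eq_iff (pow_ne_zero 2 hnu), hnusq]
      linear_combination (-(1 + u)) * huconj
    have h9 : g ^ 2 = -b ^ 2 * u := by
      rw [hgdef, mul_pow, h8, mul_pow]
      have : (-I) ^ 2 = -1 := by rw [neg_sq, I_sq]
      rw [this]; ring
    rw [h9, hu]
    simp only [uu]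
    field_simp
  have hYg : Y * conj g = X * g := by
    rw [← hsq]
    linear_combination (g * X) * hgg
  have hn0 : (n : ℂ) ≠ 0 := by
    have : n ≠ 0 := by omega
    exact_mod_cast this
  have hnpos : (0 : ℝ) < n := by
    have : 0 < n := by omega
    exact_mod_cast this
  have hrn : (0 : ℝ) < r ^ n := by positivity
  have hrn0 : ((r : ℂ)) ^ n ≠ 0 := by
    have : (r : ℂ) ≠ 0 := by exact_mod_cast (by linarith : r ≠ 0)
    exact pow_ne_zero _ this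
  set τ : ℝ := ‖w‖ / (2 * r ^ n) with hτ
  set c : ℂ := g * (τ + I * (n * ‖β₀‖)) with hc
  refine ⟨(c - 1 / 2) / n, n, ?_, ?_⟩
  · have e1 : (c - 1 / 2) / n - β₀ = (I * g * ‖β₀‖ - β₀) + (g * τ - 1 / 2) / n := by
      rw [hc]; field_simp; ring
    rw [e1]
    have e2 : ‖(g * (τ : ℂ) - 1 / 2) / n‖ < δ / 2 := by
      rw [norm_div, Complex.norm_natCast, div_lt_iff₀ hnpos]
      have e3 : ‖g * (τ : ℂ) - 1 / 2‖ ≤ ‖w‖ / 2 + 1 / 2 := by
        refine (norm_sub_le _ _).trans ?_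
        have e4 : ‖g * (τ : ℂ)‖ = τ := by
          rw [norm_mul, hg1, one_mul, norm_real, Real.norm_eq_abs, abs_of_nonneg (by positivity)]
        have e5 : τ ≤ ‖w‖ / 2 := by
          rw [hτ]
          apply div_le_div_of_nonneg_left (norm_nonneg _) (by norm_num)
          have : (1 : ℝ) ≤ r ^ n := one_le_pow₀ hr
          linarith
        rw [e4]
        have e6 : ‖(1 / 2 : ℂ)‖ = 1 / 2 := by norm_num
        rw [e6]; linarith
      have e7 : (N : ℝ) + 1 ≤ n := by exact_mod_cast hn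
      rw [div_lt_iff₀ hδ] at hN
      nlinarith
    calc ‖(I * g * ‖β₀‖ - β₀) + (g * τ - 1 / 2) / n‖
        ≤ ‖I * g * ‖β₀‖ - β₀‖ + ‖(g * (τ : ℂ) - 1 / 2) / n‖ := norm_add_le _ _
      _ < δ / 2 + δ / 2 := by gcongr
      _ = δ := by ring
  · have e1 : orb μ₁ μ₂ r ((c - 1 / 2) / n) n = (‖w‖ : ℂ) * (X * g) := by
      unfold orb
      rw [← hX, ← hY]
      have e2 : (1 / 2 : ℂ) + n * ((c - 1 / 2) / n) = c := by
        field_simp
        try ring
      have e3 : (1 / 2 : ℂ) + n * conj ((c - 1 / 2) / n) = conj c := by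
        rw [map_div₀, map_sub, map_div₀, map_one, map_natCast, map_ofNat]
        field_simp
        try ring
      rw [e2, e3]
      have e4 : conj c = conj g * (τ - I * (n * ‖β₀‖)) := by
        rw [hc]; simp only [map_mul, map_add, conj_ofReal, conj_I, map_natCast]; ring
      rw [e4]
      have e5 : X * c + Y * (conj g * (τ - I * (n * ‖β₀‖))) = 2 * τ * (X * g) := by
        rw [hc]
        linear_combination ((τ : ℂ) - I * (n * ‖β₀‖)) * hYg
      rw [e5, hτ]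
      push_cast
      field_simp
    rw [e1]
    exact hnA

/-- **Density.** -/
theorem exists_dense {μ₁ μ₂ : ℂ} (h1 : ‖μ₁‖ = 1) (h2 : ‖μ₂‖ = 1) (hi : Indep μ₁ μ₂) {r : ℝ}
    (hr : 1 ≤ r) {ρ : ℝ} (hρ : 0 < ρ) :
    ∃ β : ℂ, ‖β‖ < ρ ∧ Dense (Set.range (orb μ₁ μ₂ r β)) := by
  obtain ⟨B, hBc, hBe, hBb⟩ := TopologicalSpace.exists_countable_basis ℂ
  have hopen : ∀ V ∈ B, IsOpen {β : ℂ | ∃ n, orb μ₁ μ₂ r β n ∈ V} := by
    intro V hV
    have : {β : ℂ | ∃ n, orb μ₁ μ₂ r β n ∈ V} = ⋃ n, (fun β => orb μ₁ μ₂ r β n) ⁻¹' V := by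
      ext β; simp
    rw [this]
    exact isOpen_iUnion fun n => (hBb.isOpen hV).preimage (continuous_orb _ _ _ _)
  have hdense : ∀ V ∈ B, Dense {β : ℂ | ∃ n, orb μ₁ μ₂ r β n ∈ V} := by
    intro V hV
    have hVo := hBb.isOpen hV
    have hVne : V.Nonempty := by
      rw [Set.nonempty_iff_ne_empty]; rintro rfl; exact hBe hV
    obtain ⟨w, hwV, hw0⟩ : ∃ w ∈ V, w ≠ 0 := by
      have hd : Dense ({0}ᶜ : Set ℂ) := dense_compl_singleton 0
      obtain ⟨w, hw1, hw2⟩ := hd.inter_open_nonempty V hVo hVne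
      exact ⟨w, hw1, hw2⟩
    obtain ⟨η, hη, hball⟩ := Metric.isOpen_iff.1 hVo w hwV
    rw [Metric.dense_iff]
    intro β₀ δ hδ
    obtain ⟨β₁, hβ₁, hβ₁0⟩ : ∃ β₁, ‖β₁ - β₀‖ < δ / 2 ∧ β₁ ≠ 0 := by
      have hd : Dense ({0}ᶜ : Set ℂ) := dense_compl_singleton 0
      obtain ⟨w, hw1, hw2⟩ := hd.inter_open_nonempty (Metric.ball β₀ (δ / 2)) Metric.isOpen_ball
        ⟨β₀, Metric.mem_ball_self (by linarith)⟩
      exact ⟨w, by rwa [Metric.mem_ball, dist_eq_norm] at hw1, hw2⟩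
    obtain ⟨β, n, hβ, hn⟩ := step h1 h2 hi hr hβ₁0 hw0 (δ := min (δ / 2) η)
      (lt_min (by linarith) hη)
    refine ⟨β, ?_, n, ?_⟩
    · rw [Metric.mem_ball, dist_eq_norm]
      calc ‖β - β₀‖ = ‖(β - β₁) + (β₁ - β₀)‖ := by congr 1; ring
        _ ≤ ‖β - β₁‖ + ‖β₁ - β₀‖ := norm_add_le _ _
        _ < δ / 2 + δ / 2 := by
            have := hβ.trans_le (min_le_left _ _)
            linarith
        _ = δ := by ring
    · apply hball
      rw [Metric.mem_ball, dist_eq_norm]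
      exact hn.trans_le (min_le_right _ _)
  have hD : Dense (⋂ V ∈ B, {β : ℂ | ∃ n, orb μ₁ μ₂ r β n ∈ V}) :=
    dense_biInter_of_isOpen hopen hBc hdense
  obtain ⟨β, hβ1, hβ2⟩ := hD.inter_open_nonempty (Metric.ball 0 ρ) Metric.isOpen_ball
    ⟨0, Metric.mem_ball_self hρ⟩
  refine ⟨β, by simpa using hβ1, ?_⟩
  rw [hBb.dense_iff]
  intro V hV hVne
  rw [Set.mem_iInter₂] at hβ2
  obtain ⟨n, hn⟩ := hβ2 V hV
  exact ⟨_, hn, n, rfl⟩

end Pool.Agent.X86.NH
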