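import Mathlib

set_option autoImplicit false

/-!
# A local maximum of `log ‖b₁‖ + log ‖b₂‖ + 2 Re (κ₁ a₁ / b₁ + κ₂ a₂ / b₂)` on a unit ball
-/

namespace Pool.Agent.X86.NH

open Filter Topology Complex ComplexConjugate

/-- The functional attached to a point `x` and two parameters. -/
noncomputable def Fun (κ₁ κ₂ : ℂ) (x y : Fin 4 → ℂ) : ℂ :=
  (κ₁ / x 1) * y 0 + (1 / 2 / x 1 - κ₁ * x 0 / x 1 ^ 2) * y 1 +
    ((κ₂ / x 3) * y 2 + (1 / 2 / x 3 - κ₂ * x 2 / x 3 ^ 2) * y 3)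

lemma Fun_self (κ₁ κ₂ : ℂ) (x : Fin 4 → ℂ) (h1 : x 1 ≠ 0) (h3 : x 3 ≠ 0) :
    Fun κ₁ κ₂ x x = 1 := by
  unfold Fun
  field_simp
  ring

lemma Fun_sub (κ₁ κ₂ : ℂ) (x y z : Fin 4 → ℂ) :
    Fun κ₁ κ₂ x (y - z) = Fun κ₁ κ₂ x y - Fun κ₁ κ₂ x z := by
  simp only [Fun, Pi.sub_apply]; ring

lemma Fun_smul (κ₁ κ₂ : ℂ) (x y : Fin 4 → ℂ) (c : ℂ) :
    Fun κ₁ κ₂ x (c • y) = c * Fun κ₁ κ₂ x y := by
  simp only [Fun, Pi.smul_apply, smul_eq_mul]; ring

/-- The function to be maximised. -/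
noncomputable def G (κ₁ κ₂ : ℂ) (y : Fin 4 → ℂ) : ℝ :=
  Real.log ‖y 1‖ + Real.log ‖y 3‖ + 2 * (κ₁ * y 0 / y 1 + κ₂ * y 2 / y 3).re

/-- Derivative of `t ↦ log ‖b + t b'‖`. -/
lemma hasDerivAt_log (b b' : ℂ) (hb : b ≠ 0) :
    HasDerivAt (fun t : ℝ => Real.log ‖b + t * b'‖) (b' / b).re 0 := by
  have e : (fun t : ℝ => Real.log ‖b + t * b'‖) =
      fun t : ℝ => (1 / 2) * Real.log (normSq (b + t * b')) := by
    funext t
    rw [normSq_eq_norm_sq, Real.log_pow]; push_cast; ring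
  rw [e]
  have e2 : (fun t : ℝ => normSq (b + t * b')) =
      fun t : ℝ => normSq b + t * (2 * (b * conj b').re) + t ^ 2 * normSq b' := by
    funext t
    simp only [normSq_apply, add_re, add_im, mul_re, mul_im, ofReal_re, ofReal_im, conj_re, conj_im]
    ring
  have h0 : HasDerivAt (fun t : ℝ => normSq (b + t * b')) (2 * (b * conj b').re) 0 := by
    rw [e2]
    have h1 : HasDerivAt (fun t : ℝ => t * (2 * (b * conj b').re)) (2 * (b * conj b').re) 0 := by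
      simpa using (hasDerivAt_id (0 : ℝ)).mul_const (2 * (b * conj b').re)
    have h2 : HasDerivAt (fun t : ℝ => t ^ 2 * normSq b') 0 0 := by
      simpa using (hasDerivAt_pow 2 (0 : ℝ)).mul_const (normSq b')
    have h3 : HasDerivAt (fun t : ℝ => normSq b + t * (2 * (b * conj b').re) + t ^ 2 * normSq b')
        (2 * (b * conj b').re + 0) 0 := (h1.const_add (normSq b)).add h2
    rw [add_zero] at h3
    exact h3
  have hne : normSq (b + ((0 : ℝ) : ℂ) * b') ≠ 0 := by simpa using hb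
  have h3 := (h0.log hne).const_mul (1 / 2)
  refine h3.congr_deriv ?_
  simp only [ofReal_zero, zero_mul, add_zero]
  have hb2 : normSq b ≠ 0 := by simpa using hb
  rw [div_re]
  simp only [mul_re, conj_re, conj_im]
  field_simp
  ring

lemma hasDerivAt_quot (κ a a' b b' : ℂ) (hb : b ≠ 0) :
    HasDerivAt (fun t : ℝ => (κ * (a + t * a') / (b + t * b')).re)
      (κ / b * a' - κ * a / b ^ 2 * b').re 0 := by
  have h1 : HasDerivAt (fun t : ℝ => κ * (a + (t : ℂ) * a')) (κ * a') 0 := by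
    have : HasDerivAt (fun t : ℝ => (t : ℂ)) 1 0 := by
      simpa using (hasDerivAt_id (0 : ℝ)).ofReal_comp
    simpa using ((this.mul_const a').const_add a).const_mul κ
  have h2 : HasDerivAt (fun t : ℝ => (b + (t : ℂ) * b')) b' 0 := by
    have : HasDerivAt (fun t : ℝ => (t : ℂ)) 1 0 := by
      simpa using (hasDerivAt_id (0 : ℝ)).ofReal_comp
    simpa using (this.mul_const b').const_add b
  have h3 := h1.div h2 (by simpa using hb)
  have h4 := (Complex.reCLM.hasFDerivAt.comp_hasDerivAt (0 : ℝ) h3)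
  refine HasDerivAt.congr_deriv (f := fun t : ℝ => (κ * (a + t * a') / (b + t * b')).re) h4 ?_
  simp only [reCLM_apply, ofReal_zero, zero_mul, add_zero]
  congr 1
  field_simp

lemma hasDerivAt_G (κ₁ κ₂ : ℂ) (x y : Fin 4 → ℂ) (h1 : x 1 ≠ 0) (h3 : x 3 ≠ 0) :
    HasDerivAt (fun t : ℝ => G κ₁ κ₂ (x + (t : ℂ) • y)) (2 * (Fun κ₁ κ₂ x y).re) 0 := by
  have a1 := hasDerivAt_log (x 1) (y 1) h1
  have a2 := hasDerivAt_log (x 3) (y 3) h3
  have a3 := hasDerivAt_quot κ₁ (x 0) (y 0) (x 1) (y 1) h1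
  have a4 := hasDerivAt_quot κ₂ (x 2) (y 2) (x 3) (y 3) h3
  have := (a1.add a2).add ((a3.add a4).const_mul 2)
  have hfun : (fun t : ℝ => G κ₁ κ₂ (x + (t : ℂ) • y)) = fun t : ℝ =>
      Real.log ‖x 1 + t * y 1‖ + Real.log ‖x 3 + t * y 3‖ +
      2 * ((κ₁ * (x 0 + t * y 0) / (x 1 + t * y 1)).re +
        (κ₂ * (x 2 + t * y 2) / (x 3 + t * y 3)).re) := by
    funext t
    simp only [G, Pi.add_apply, Pi.smul_apply, smul_eq_mul, add_re]
  rw [hfun]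
  refine this.congr_deriv ?_
  · have e : (Fun κ₁ κ₂ x y) = (κ₁ / x 1 * y 0 - κ₁ * x 0 / x 1 ^ 2 * y 1) +
        (κ₂ / x 3 * y 2 - κ₂ * x 2 / x 3 ^ 2 * y 3) + ((1 / 2 : ℝ) : ℂ) * (y 1 / x 1)
        + ((1 / 2 : ℝ) : ℂ) * (y 3 / x 3) := by
      unfold Fun; push_cast; ring
    rw [e, add_re, add_re, add_re, re_ofReal_mul, re_ofReal_mul]
    ring

lemma deriv_nonpos {h : ℝ → ℝ} {h' : ℝ} (hd : HasDerivAt h h' 0)
    (hle : ∀ᶠ t in 𝓝[>] (0 : ℝ), h t ≤ h 0) : h' ≤ 0 := by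
  rw [hasDerivAt_iff_tendsto_slope] at hd
  have h1 : Tendsto (slope h 0) (𝓝[>] (0 : ℝ)) (𝓝 h') :=
    hd.mono_left (nhdsWithin_mono _ fun t ht => ne_of_gt ht)
  refine le_of_tendsto h1 ?_
  filter_upwards [hle, self_mem_nhdsWithin] with t ht1 ht2
  rw [slope_def_field, sub_zero]
  exact div_nonpos_of_nonpos_of_nonneg (by linarith) (le_of_lt ht2)

variable {Y : Type*} [NormedAddCommGroup Y] [NormedSpace ℂ Y]

/-- **Existence of the extremal point.** -/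
theorem exists_extremal (L : (Fin 4 → ℂ) →ₗ[ℂ] Y) (hL : Function.Injective L) :
    ∃ ρ : ℝ, 0 < ρ ∧ ∀ κ₁ κ₂ : ℂ, ‖κ₁‖ < ρ → ‖κ₂‖ < ρ → ∃ x : Fin 4 → ℂ, x 1 ≠ 0 ∧ x 3 ≠ 0 ∧
      ‖L x‖ ≤ 1 ∧ ∀ y, ‖L y‖ ≤ 1 → (Fun κ₁ κ₂ x y).re ≤ 1 := by
  obtain ⟨K, hK, hanti⟩ := L.exists_antilipschitzWith (LinearMap.ker_eq_bot.2 hL)
  have hLc : Continuous L := L.continuous_of_finiteDimensional
  set C : ℝ := K + 1 with hC
  have hC0 : 0 < C := by positivity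
  have hbound : ∀ y, ‖L y‖ ≤ 1 → ∀ i, ‖y i‖ ≤ C := by
    intro y hy i
    have h1 : ‖y‖ ≤ K * ‖L y‖ := by
      have := hanti.le_mul_dist y 0
      simpa using this
    calc ‖y i‖ ≤ ‖y‖ := norm_le_pi_norm y i
      _ ≤ K * ‖L y‖ := h1
      _ ≤ K * 1 := by gcongr
      _ ≤ C := by rw [hC]; linarith
  set K0 : Set (Fin 4 → ℂ) := {y | ‖L y‖ ≤ 1} with hK0
  have hK0c : IsCompact K0 := by
    refine Metric.isCompact_of_isClosed_isBounded (isClosed_le hLc.norm continuous_const) ?_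
    refine (Metric.isBounded_closedBall (x := (0 : Fin 4 → ℂ)) (r := C)).subset ?_
    intro y hy
    rw [mem_closedBall_zero_iff, pi_norm_le_iff_of_nonneg hC0.le]
    exact hbound y hy
  have hmc : Continuous fun y : Fin 4 → ℂ => ‖y 1‖ * ‖y 3‖ := by fun_prop
  obtain ⟨y₀, hy₀, hmax⟩ := hK0c.exists_isMaxOn ⟨0, by simp [hK0]⟩ hmc.continuousOn
  set m₀ : ℝ := ‖y₀ 1‖ * ‖y₀ 3‖ with hm₀
  have hm₀pos : 0 < m₀ := by
    obtain ⟨c, hc0, hc1⟩ : ∃ c : ℝ, 0 < c ∧ ‖L ((c : ℂ) • fun _ => 1)‖ ≤ 1 := by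
      refine ⟨1 / (‖L fun _ => 1‖ + 1), by positivity, ?_⟩
      rw [map_smul, norm_smul, norm_real, Real.norm_eq_abs, abs_of_pos (by positivity)]
      rw [div_mul_eq_mul_div, div_le_one (by positivity)]
      linarith
    have := hmax (show ((c : ℂ) • fun _ => 1) ∈ K0 from hc1)
    simp only [Set.mem_ofPred_eq, Pi.smul_apply, smul_eq_mul, mul_one, norm_real,
      Real.norm_eq_abs, abs_of_pos hc0] at this
    exact lt_of_lt_of_le (by positivity) this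
  set ρ : ℝ := m₀ / (64 * C ^ 2) with hρ
  refine ⟨ρ, by positivity, ?_⟩
  intro κ₁ κ₂ hκ₁ hκ₂
  set K1 : Set (Fin 4 → ℂ) := {y | ‖L y‖ ≤ 1 ∧ m₀ / 4 ≤ ‖y 1‖ * ‖y 3‖} with hK1
  have hK1c : IsCompact K1 :=
    hK0c.inter_right (isClosed_le continuous_const hmc)
  have hlow1 : ∀ y ∈ K1, m₀ / (4 * C) ≤ ‖y 1‖ := by
    intro y hy
    have h3 := hbound y hy.1 3
    rw [div_le_iff₀ (by positivity)]
    have h1 := hy.2
    nlinarith [norm_nonneg (y 1), norm_nonneg (y 3)]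
  have hlow3 : ∀ y ∈ K1, m₀ / (4 * C) ≤ ‖y 3‖ := by
    intro y hy
    have h3 := hbound y hy.1 1
    rw [div_le_iff₀ (by positivity)]
    have h1 := hy.2
    nlinarith [norm_nonneg (y 1), norm_nonneg (y 3)]
  have hlpos : 0 < m₀ / (4 * C) := by positivity
  have hne1 : ∀ y ∈ K1, y 1 ≠ 0 := fun y hy h => by
    have := hlow1 y hy; rw [h, norm_zero] at this; linarith
  have hne3 : ∀ y ∈ K1, y 3 ≠ 0 := fun y hy h => by
    have := hlow3 y hy; rw [h, norm_zero] at this; linarith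
  have hquot : ∀ (κ a b : ℂ), ‖κ‖ < ρ → ‖a‖ ≤ C → m₀ / (4 * C) ≤ ‖b‖ → ‖κ * a / b‖ ≤ 1 / 16 := by
    intro κ a b hκ ha hb
    rw [norm_div, norm_mul, div_le_iff₀ (by linarith)]
    calc ‖κ‖ * ‖a‖ ≤ ρ * C := by gcongr
      _ = 1 / 16 * (m₀ / (4 * C)) := by rw [hρ]; field_simp; norm_num
      _ ≤ 1 / 16 * ‖b‖ := by gcongr
  have hre : ∀ y ∈ K1, |2 * (κ₁ * y 0 / y 1 + κ₂ * y 2 / y 3).re| ≤ 1 / 4 := by
    intro y hy
    have h1 := hquot κ₁ (y 0) (y 1) hκ₁ (hbound y hy.1 0) (hlow1 y hy)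
    have h2 := hquot κ₂ (y 2) (y 3) hκ₂ (hbound y hy.1 2) (hlow3 y hy)
    rw [abs_mul, abs_two]
    have h3 : |(κ₁ * y 0 / y 1 + κ₂ * y 2 / y 3).re| ≤ 1 / 16 + 1 / 16 :=
      (abs_re_le_norm _).trans ((norm_add_le _ _).trans (add_le_add h1 h2))
    linarith
  have hGc : ContinuousOn (G κ₁ κ₂) K1 := by
    unfold G
    refine ContinuousOn.add (ContinuousOn.add ?_ ?_) ?_
    · exact ContinuousOn.log (by fun_prop) fun y hy => norm_ne_zero_iff.2 (hne1 y hy)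
    · exact ContinuousOn.log (by fun_prop) fun y hy => norm_ne_zero_iff.2 (hne3 y hy)
    · refine ContinuousOn.const_mul ?_ 2 |>.congr fun y _ => rfl
      refine continuous_re.comp_continuousOn (ContinuousOn.add ?_ ?_)
      · exact ContinuousOn.div (by fun_prop) (by fun_prop) hne1
      · exact ContinuousOn.div (by fun_prop) (by fun_prop) hne3
  have hy₀1 : y₀ ∈ K1 := ⟨hy₀, by rw [← hm₀]; linarith⟩
  obtain ⟨x, hx, hxmax⟩ := hK1c.exists_isMaxOn ⟨y₀, hy₀1⟩ hGc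
  have hx1 := hne1 x hx
  have hx3 := hne3 x hx
  have hm : m₀ / 4 < ‖x 1‖ * ‖x 3‖ := by
    have h1 := hxmax hy₀1
    simp only [Set.mem_ofPred_eq, G] at h1
    have h2 := abs_le.1 (hre y₀ hy₀1)
    have h3 := abs_le.1 (hre x hx)
    have hy1 := norm_ne_zero_iff.2 (hne1 y₀ hy₀1)
    have hy3 := norm_ne_zero_iff.2 (hne3 y₀ hy₀1)
    have h4 : Real.log m₀ ≤ Real.log (‖x 1‖ * ‖x 3‖) + 1 / 2 := by
      rw [hm₀, Real.log_mul hy1 hy3, Real.log_mul (norm_ne_zero_iff.2 hx1) (norm_ne_zero_iff.2 hx3)]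
      linarith
    have h5 : Real.log (m₀ / 4) < Real.log (‖x 1‖ * ‖x 3‖) := by
      rw [Real.log_div hm₀pos.ne' (by norm_num)]
      have h6 : (1 : ℝ) < Real.log 4 := by
        rw [Real.lt_log_iff_exp_lt (by norm_num)]
        have := Real.exp_one_lt_d9
        linarith
      linarith
    exact (Real.log_lt_log_iff (by positivity) (by
      have := norm_pos_iff.2 hx1; have := norm_pos_iff.2 hx3; positivity)).1 h5
  refine ⟨x, hx1, hx3, hx.1, ?_⟩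
  intro y hy
  have hder := hasDerivAt_G κ₁ κ₂ x (y - x) hx1 hx3
  have hle : ∀ᶠ t in 𝓝[>] (0 : ℝ), (fun t : ℝ => G κ₁ κ₂ (x + (t : ℂ) • (y - x))) t ≤
      (fun t : ℝ => G κ₁ κ₂ (x + (t : ℂ) • (y - x))) 0 := by
    have hcont : Continuous fun t : ℝ => ‖(x + (t : ℂ) • (y - x)) 1‖ * ‖(x + (t : ℂ) • (y - x)) 3‖ := by
      simp only [Pi.add_apply, Pi.smul_apply, smul_eq_mul]
      fun_prop
    have h0 : m₀ / 4 < ‖(x + ((0 : ℝ) : ℂ) • (y - x)) 1‖ * ‖(x + ((0 : ℝ) : ℂ) • (y - x)) 3‖ := by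
      simpa using hm
    have h1 : ∀ᶠ t : ℝ in 𝓝 (0 : ℝ), m₀ / 4 <
        ‖(x + (t : ℂ) • (y - x)) 1‖ * ‖(x + (t : ℂ) • (y - x)) 3‖ :=
      hcont.continuousAt.eventually (lt_mem_nhds h0)
    have h2 : ∀ᶠ t in 𝓝 (0 : ℝ), t < 1 := gt_mem_nhds one_pos
    filter_upwards [nhdsWithin_le_nhds h1, nhdsWithin_le_nhds h2, self_mem_nhdsWithin]
      with t ht1 ht2 ht3
    have ht3' : 0 < t := ht3
    have hmem : x + (t : ℂ) • (y - x) ∈ K1 := by
      refine ⟨?_, ht1.le⟩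
      have e : x + (t : ℂ) • (y - x) = ((1 - t : ℝ) : ℂ) • x + (t : ℂ) • y := by
        push_cast; module
      rw [e, map_add, map_smul, map_smul]
      calc ‖((1 - t : ℝ) : ℂ) • L x + (t : ℂ) • L y‖
          ≤ ‖((1 - t : ℝ) : ℂ) • L x‖ + ‖(t : ℂ) • L y‖ := norm_add_le _ _
        _ = (1 - t) * ‖L x‖ + t * ‖L y‖ := by
            rw [norm_smul, norm_smul, norm_real, norm_real, Real.norm_eq_abs, Real.norm_eq_abs,
              abs_of_pos ht3', abs_of_pos (by linarith)]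
        _ ≤ (1 - t) * 1 + t * 1 := by
            have := hx.1
            gcongr
        _ = 1 := by ring
    have := hxmax hmem
    simp only [Set.mem_ofPred_eq] at this
    simpa using this
  have h3 := deriv_nonpos hder hle
  rw [Fun_sub, Fun_self _ _ _ hx1 hx3, sub_re, one_re] at h3
  linarith

end Pool.Agent.X86.NH
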